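import Mathlib
import Pool.Agent.Y716.M.WADefs
import Pool.Agent.Y716.Q.WA2

/-! The case of one block of the weak approximation statement. -/

set_option autoImplicit false

namespace Pool.Agent.Y379.WA

open Pool.Agent.Y716.M Pool.Agent.Y716.Q

theorem ne_zero_iff_one {K : Type*} [Zero K] (n : Fin 1 → ℕ) (x : Var n → K) :
    x ≠ 0 ↔ ∀ i : Fin 1, bl x i ≠ 0 := by
  constructor
  · intro h i h0
    apply h
    funext ⟨i', j⟩
    have hi : i' = i := Subsingleton.elim _ _
    subst hi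
    exact congrFun h0 j
  · intro h h0
    apply h 0
    funext j
    exact congrFun h0 ⟨0, j⟩

theorem deg_iff_one (n d : Fin 1 → ℕ) (f : MvPolynomial (Var n) ℤ) :
    f.IsHomogeneous (d 0) ↔ ∀ s ∈ f.support, ∀ i : Fin 1, ∑ j : Fin (n i + 1), s ⟨i, j⟩ = d i := by
  constructor
  · intro h s hs i
    have h1 := Pool.Agent.Y716.Q.homog_sum_eq h (MvPolynomial.mem_support_iff.mp hs)
    rw [Fintype.sum_sigma, Fin.sum_univ_one] at h1
    rw [Subsingleton.elim i 0]
    exact h1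
  · intro h s hs
    have h1 := h s (MvPolynomial.mem_support_iff.mpr hs) 0
    rw [Finsupp.weight_apply, Finsupp.sum_fintype, Fintype.sum_sigma, Fin.sum_univ_one]
    · simpa using h1
    · simp

theorem norm_bl {K : Type*} [SeminormedAddCommGroup K] (n : Fin 1 → ℕ) (x : Var n → K)
    (i : Fin 1) : ‖bl x i‖ = ‖x‖ := by
  have hi : i = 0 := Subsingleton.elim _ _
  subst hi
  apply le_antisymm
  · rw [pi_norm_le_iff_of_nonneg (norm_nonneg _)]
    intro j
    exact norm_le_pi_norm x ⟨0, j⟩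
  · rw [pi_norm_le_iff_of_nonneg (norm_nonneg _)]
    rintro ⟨i', j⟩
    have hi : i' = 0 := Subsingleton.elim _ _
    subst hi
    exact norm_le_pi_norm (bl x 0) j

theorem els_iff (n : Fin 1 → ℕ) (f : MvPolynomial (Var n) ℤ) : ELS f ↔ ElsB f := by
  unfold ELS ElsB
  simp only [ne_zero_iff_one]

theorem wa_iff (n : Fin 1 → ℕ) (m : ℕ) (f : MvPolynomial (Var n) ℤ) :
    WeakApprox m f ↔ WeakApproxM m f := by
  unfold WeakApprox WeakApproxM
  simp only [ne_zero_iff_one, norm_bl]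
  have h1 : ∀ {P : Fin 1 → Prop}, (∀ i, P i) ↔ P 0 := by
    intro P
    exact ⟨fun h => h 0, fun h i => by rw [Subsingleton.elim i 0]; exact h⟩
  have h2 : ∀ {P : Var n → Prop}, (∀ a, P a) ↔ ∀ j, P ⟨0, j⟩ := by
    intro P
    refine ⟨fun h j => h _, ?_⟩
    rintro h ⟨i, j⟩
    have hi : i = 0 := Subsingleton.elim _ _
    subst hi
    exact h j
  simp only [h1, h2]

theorem wa_one (n d : Fin 1 → ℕ) (hn : 3 ≤ n 0) (hd : 2 ≤ d 0) (hdn : d 0 ≤ n 0) :
    WAStmtM n d := by
  have hcard : Fintype.card (Var n) = n 0 + 1 := by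
    rw [Fintype.card_sigma, Fin.sum_univ_one, Fintype.card_fin]
  obtain ⟨m, hm, h⟩ := Pool.Agent.Y716.Q.main_wa (Var n) (by rw [hcard]; omega) (d 0 - 2)
    (by rw [hcard]; omega)
  have hd2 : d 0 - 2 + 2 = d 0 := by omega
  rw [hd2] at h
  refine ⟨m, hm, ?_⟩
  refine h.congr (fun H => ?_)
  simp only [deg_iff_one, els_iff, wa_iff]

end Pool.Agent.Y379.WA
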